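import Mathlib
import Pool.Agent.H740R3.AQStmts

set_option autoImplicit false
set_option synthInstance.maxHeartbeats 400000

open Filter Topology
open scoped InnerProductSpace

namespace Pool.Agent.H462R5.AQT

open Pool.Agent.H740R3.AQ

theorem exp_eig (B : H →L[ℂ] H) (v : H) (c : ℂ) (h : B v = c • v) :
    NormedSpace.exp B v = Complex.exp c • v := by
  have hpow : ∀ n : ℕ, (B ^ n) v = c ^ n • v := by
    intro n
    induction n with
    | zero => simp
    | succ n ih =>
      rw [pow_succ, mul_apply_eq_comp, h, map_smul, ih, smul_smul, pow_succ, mul_comm]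
  have h1 := NormedSpace.exp_series_hasSum_exp' (𝕂 := ℂ) B
  have h2 : HasSum (fun n : ℕ => (((n.factorial : ℂ)⁻¹ • B ^ n : H →L[ℂ] H)) v)
      (NormedSpace.exp B v) := by
    have := (ContinuousLinearMap.apply ℂ H v).hasSum h1
    simpa using this
  have h3 := NormedSpace.exp_series_hasSum_exp' (𝕂 := ℂ) c
  have h4 : HasSum (fun n : ℕ => ((n.factorial : ℂ)⁻¹ • c ^ n) • v) (Complex.exp c • v) := by
    rw [Complex.exp_eq_exp_ℂ]
    exact h3.smul_const v
  refine h2.unique ?_
  convert h4 using 2 with n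
  rw [smul_apply, hpow, smul_smul, smul_eq_mul]

theorem exists_small (S : Finset ℂ) (δ : ℝ) (hδ : 0 < δ) :
    ∃ t : ℝ, 0 < t ∧ t < δ ∧ (t : ℂ) ∉ S := by
  have hinf : (Set.Ioo 0 δ).Infinite := Set.Ioo_infinite hδ
  have hfin : ((fun t : ℝ => (t : ℂ)) ⁻¹' (S : Set ℂ)).Finite :=
    S.finite_toSet.preimage (Complex.ofReal_injective.injOn)
  obtain ⟨t, ht, hn⟩ := (hinf.sdiff hfin).nonempty
  exact ⟨t, ht.1, ht.2, fun h => hn (by simpa using h)⟩

theorem b_self_sum {ι : Type} [Fintype ι] [DecidableEq ι] {N : ℕ} {A : H →L[ℂ] H} {u : ι → H}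
    {α : ι → ℂ} (hD : Dg N A u α) (i : ι) : b (u i) (∑ j, u j) = 1 := by
  rw [b_sum_right]
  simp_rw [hD.orth]
  simp

theorem perturb {ι : Type} [Fintype ι] [DecidableEq ι] {N : ℕ} {A : H →L[ℂ] H} {u : ι → H}
    {α : ι → ℂ} (hD : Dg N A u α) (x : H) (hx : Pi N x = x) (bad : ι → Finset ℂ) (ε : ℝ)
    (hε : 0 < ε) : ∃ x' : H, Pi N x' = x' ∧ ‖x' - x‖ < ε ∧ ∀ i, b (u i) x' ∉ bad i := by
  classical
  set U : H := ∑ j, u j with hU
  obtain ⟨t, ht0, htδ, htS⟩ := exists_small
    (Finset.univ.biUnion fun i => (bad i).image fun c => c - b (u i) x) (ε / (‖U‖ + 1))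
    (by positivity)
  refine ⟨x + (t : ℂ) • U, ?_, ?_, ?_⟩
  · rw [map_add, map_smul, hx, hU, map_sum]
    simp_rw [hD.mem]
  · rw [add_sub_cancel_left, norm_smul, Complex.norm_real, Real.norm_of_nonneg ht0.le]
    have h1 : t * (‖U‖ + 1) < ε := by
      rwa [lt_div_iff₀ (by positivity)] at htδ
    nlinarith [norm_nonneg U]
  · intro i hi
    apply htS
    rw [Finset.mem_biUnion]
    refine ⟨i, Finset.mem_univ i, Finset.mem_image.2 ⟨_, hi, ?_⟩⟩
    rw [b_add_right, b_smul_right, hU, b_self_sum hD i]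
    ring

/-- the new eigenvalue -/
noncomputable def al (ξ η a : ℂ) (n : ℕ) : ℂ :=
  (Complex.log (η / ξ) + 2 * Real.pi * Complex.I * (round (n * a.im / (2 * Real.pi)) : ℤ)) / n

theorem al_ne {ξ η : ℂ} (hξ : ξ ≠ 0) (hη : η ≠ 0) (hne : η ≠ ξ) (a : ℂ) {n : ℕ} (hn : 1 ≤ n) :
    al ξ η a n ≠ 0 := by
  intro h
  have hn0 : (n : ℂ) ≠ 0 := by
    have : n ≠ 0 := by omega
    exact_mod_cast this
  unfold al at h
  rw [div_eq_zero_iff] at h
  rcases h with h | h
  · set m := round (n * a.im / (2 * Real.pi)) with hm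
    have him : (Complex.log (η / ξ)).im + 2 * Real.pi * m = 0 := by
      have := congrArg Complex.im h
      simpa using this
    have h1 := Complex.neg_pi_lt_log_im (η / ξ)
    have h2 := Complex.log_im_le_pi (η / ξ)
    have hpi := Real.pi_pos
    have hm0 : m = 0 := by
      have h3 : (m : ℝ) < 1 := by
        by_contra hc
        push Not at hc
        nlinarith
      have h4 : (-1 : ℝ) < m := by
        by_contra hc
        push Not at hc
        nlinarith
      have h5 : m < 1 := by exact_mod_cast h3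
      have h6 : -1 < m := by exact_mod_cast h4
      omega
    rw [hm0] at h
    simp only [Int.cast_zero, mul_zero, add_zero] at h
    have h7 : η / ξ = 1 := by
      rw [← Complex.exp_log (div_ne_zero hη hξ), h, Complex.exp_zero]
    exact hne (by rwa [div_eq_one_iff_eq hξ] at h7)
  · exact hn0 h

theorem exp_al {ξ η : ℂ} (hξ : ξ ≠ 0) (hη : η ≠ 0) (a : ℂ) {n : ℕ} (hn : 1 ≤ n) :
    Complex.exp ((n : ℂ) * al ξ η a n) = η / ξ := by
  have hn0 : (n : ℂ) ≠ 0 := by
    have : n ≠ 0 := by omega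
    exact_mod_cast this
  unfold al
  rw [mul_div_cancel₀ _ hn0, Complex.exp_add, Complex.exp_log (div_ne_zero hη hξ)]
  have : Complex.exp (2 * Real.pi * Complex.I * (round (n * a.im / (2 * Real.pi)) : ℤ)) = 1 := by
    rw [mul_comm]
    exact Complex.exp_int_mul_two_pi_mul_I _
  rw [this, mul_one]

theorem tendsto_al (ξ η a : ℂ) (ha : a.re = 0) : Tendsto (al ξ η a) atTop (𝓝 a) := by
  have hinv : Tendsto (fun n : ℕ => ((n : ℂ))⁻¹) atTop (𝓝 0) := tendsto_inv_atTop_nhds_zero_nat
  -- the rounding error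
  have hr : Tendsto (fun n : ℕ => (((round (n * a.im / (2 * Real.pi)) : ℤ) : ℝ) -
      n * a.im / (2 * Real.pi)) / n) atTop (𝓝 0) := by
    refine squeeze_zero_norm (a := fun n : ℕ => (1 : ℝ) / n) (fun n => ?_)
      tendsto_one_div_atTop_nhds_zero_nat
    rw [norm_div, Real.norm_eq_abs, Real.norm_of_nonneg (Nat.cast_nonneg n)]
    have := abs_sub_round (n * a.im / (2 * Real.pi))
    rw [abs_sub_comm] at this
    gcongr
    linarith
  have hrc : Tendsto (fun n : ℕ => (((((round (n * a.im / (2 * Real.pi)) : ℤ) : ℝ) -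
      n * a.im / (2 * Real.pi)) / n : ℝ) : ℂ)) atTop (𝓝 0) := by
    have := (Complex.continuous_ofReal.tendsto 0).comp hr
    rw [Complex.ofReal_zero] at this
    exact this
  have h1 : Tendsto (fun n : ℕ => Complex.log (η / ξ) * ((n : ℂ))⁻¹ +
      2 * Real.pi * Complex.I * (((((round (n * a.im / (2 * Real.pi)) : ℤ) : ℝ) -
      n * a.im / (2 * Real.pi)) / n : ℝ) : ℂ) + a) atTop (𝓝 a) := by
    have := ((hinv.const_mul (Complex.log (η / ξ))).add
      (hrc.const_mul (2 * Real.pi * Complex.I))).add (tendsto_const_nhds (x := a))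
    simpa using this
  refine h1.congr' ?_
  filter_upwards [eventually_ge_atTop 1] with n hn
  have hn0 : (n : ℂ) ≠ 0 := by
    have : n ≠ 0 := by omega
    exact_mod_cast this
  have hpi : (Real.pi : ℂ) ≠ 0 := by exact_mod_cast Real.pi_ne_zero
  have haI : a = a.im * Complex.I := by
    apply Complex.ext <;> simp [ha]
  unfold al
  push_cast
  rw [haI]
  simp only [Complex.mul_im, Complex.ofReal_re, Complex.I_im, mul_one, Complex.ofReal_im,
    Complex.I_re, mul_zero, add_zero]
  field_simp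
  ring

theorem taskTransport : TaskTransport := by
  intro N A ι _ _ u α hD hα x y hx hy ε hε
  obtain ⟨x', hx'1, hx'2, hx'3⟩ := perturb hD x hx (fun _ => {0}) ε hε
  obtain ⟨y', hy'1, hy'2, hy'3⟩ := perturb hD y hy (fun i => {0, b (u i) x'}) ε hε
  have hξ : ∀ i, b (u i) x' ≠ 0 := fun i h => hx'3 i (by simp [h])
  have hη : ∀ i, b (u i) y' ≠ 0 := fun i h => hy'3 i (by simp [h])
  have hne : ∀ i, b (u i) y' ≠ b (u i) x' := fun i h => hy'3 i (by simp [h])
  refine ⟨x', y', fun n => ∑ i, al (b (u i) x') (b (u i) y') (α i) n • rk (u i) (u i),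
    fun n i => al (b (u i) x') (b (u i) y') (α i) n, hx'1, hx'2, hy'2, ?_, ?_⟩
  · intro n hn
    have heig : ∀ f : H, (∑ i, al (b (u i) x') (b (u i) y') (α i) n • rk (u i) (u i)) f =
        ∑ i, (al (b (u i) x') (b (u i) y') (α i) n * b (u i) f) • u i := by
      intro f
      rw [sum_apply]
      refine Finset.sum_congr rfl fun i _ => ?_
      rw [smul_apply, rk_apply, smul_smul]
    refine ⟨⟨hD.orth, hD.mem, hD.compl, heig⟩, fun i => al_ne (hξ i) (hη i) (hne i) _ hn, ?_⟩
    set B : H →L[ℂ] H := ∑ i, al (b (u i) x') (b (u i) y') (α i) n • rk (u i) (u i) with hB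
    have hBu : ∀ i, ((n : ℂ) • B) (u i) =
        ((n : ℂ) * al (b (u i) x') (b (u i) y') (α i) n) • u i := by
      intro i
      rw [smul_apply, heig, Finset.sum_eq_single i]
      · rw [hD.orth, if_pos rfl, mul_one, smul_smul]
      · intro j _ hj
        rw [hD.orth, if_neg hj, mul_zero, zero_smul]
      · intro h
        exact absurd (Finset.mem_univ i) h
    calc NormedSpace.exp ((n : ℂ) • B) x'
        = NormedSpace.exp ((n : ℂ) • B) (∑ i, b (u i) x' • u i) := by rw [hD.compl, hx'1]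
      _ = ∑ i, b (u i) x' • NormedSpace.exp ((n : ℂ) • B) (u i) := by
          rw [map_sum]
          exact Finset.sum_congr rfl fun i _ => map_smul _ _ _
      _ = ∑ i, b (u i) y' • u i := by
          refine Finset.sum_congr rfl fun i _ => ?_
          rw [exp_eig _ _ _ (hBu i), exp_al (hξ i) (hη i) _ hn, smul_smul,
            mul_div_cancel₀ _ (hξ i)]
      _ = y' := by rw [hD.compl, hy'1]
  · have hA : A = ∑ i, α i • rk (u i) (u i) := by
      apply ContinuousLinearMap.ext
      intro f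
      rw [hD.eig, sum_apply]
      refine Finset.sum_congr rfl fun i _ => ?_
      rw [smul_apply, rk_apply, smul_smul]
    have : Tendsto (fun n => ∑ i, al (b (u i) x') (b (u i) y') (α i) n • rk (u i) (u i)) atTop
        (𝓝 (∑ i, α i • rk (u i) (u i))) :=
      tendsto_finsetSum _ fun i _ => (tendsto_al _ _ _ (hα i)).smul_const _
    rw [hA]
    exact this

end Pool.Agent.H462R5.AQT
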