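import Mathlib
import Pool.Agent.H577R3.RM.Stmts
import Pool.Agent.H577R3.TaskBI
import Pool.Agent.H577R3.Lang

set_option autoImplicit false

/-! Formulas and the class `Dg`; relativization to a definable subgroup. -/

namespace Pool.Agent.H462R5.RFI

open FirstOrder FirstOrder.Language Pool.Agent.Helper967.ArithDef Pool.Agent.Helper967.ModelDef
  Pool.Agent.H577R3 Encodable

attribute [local instance] strG

section conv

variable {G : Type} [Group G] {P : Type} (x : P → G)

/-- the valuation of the free variables -/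
def fv (k : ℕ) (v : ℕ → G) : P ⊕ ℕ → G := Sum.elim x (fun n => v (n + k))

/-- the valuation of the bound variables -/
def bv (k : ℕ) (v : ℕ → G) : Fin k → G := fun i => v (k - 1 - i)

theorem dg_var (a b : ℕ) : Dg x (fun v => v a = v b) :=
  Dg.ren (fun n => match n with | 0 => a | _ => b) Dg.eq

theorem dg_term (k : ℕ) (t : LG.Term ((P ⊕ ℕ) ⊕ Fin k)) :
    Dg x (fun v => v 0 = t.realize (Sum.elim (fv x k (fun n => v (n + 1)))
      (bv k (fun n => v (n + 1))))) := by
  induction t with
  | var s =>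
    rcases s with (p | n) | i
    · exact Dg.par p
    · exact dg_var x 0 (n + k + 1)
    · exact dg_var x 0 (k - 1 - i + 1)
  | @func l f ts ih =>
    by_cases h : l = 2
    · subst h
      set T : Fin 2 → (ℕ → G) → G := fun i v =>
        (ts i).realize (Sum.elim (fv x k v) (bv k v)) with hT
      have h0 : Dg x (fun w => w 1 = T 0 (fun n => w (n + 3))) :=
        Dg.ren (R := fun v => v 0 = T 0 (fun n => v (n + 1)))
          (fun n => match n with | 0 => 1 | n + 1 => n + 3) (ih 0)
      have h1 : Dg x (fun w => w 0 = T 1 (fun n => w (n + 3))) :=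
        Dg.ren (R := fun v => v 0 = T 1 (fun n => v (n + 1)))
          (fun n => match n with | 0 => 0 | n + 1 => n + 3) (ih 1)
      have h2 : Dg x (fun w => w 1 * w 0 = w 2) :=
        Dg.ren (fun n => match n with | 0 => 1 | 1 => 0 | _ => 2) Dg.mul
      have h3 : Dg x (fun u => ∃ b, u 0 = T 0 (fun n => u (n + 2)) ∧ b = T 1 (fun n => u (n + 2)) ∧
          u 0 * b = u 1) :=
        Dg.ex' (S := fun b u => u 0 = T 0 (fun n => u (n + 2)) ∧ b = T 1 (fun n => u (n + 2)) ∧
          u 0 * b = u 1) (Dg.and h0 (Dg.and h1 h2))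
      have h4 : Dg x (fun v => ∃ a, ∃ b, a = T 0 (fun n => v (n + 1)) ∧
          b = T 1 (fun n => v (n + 1)) ∧ a * b = v 0) :=
        Dg.ex' (S := fun a v => ∃ b, a = T 0 (fun n => v (n + 1)) ∧
          b = T 1 (fun n => v (n + 1)) ∧ a * b = v 0) h3
      refine Dg.iff (fun v => ?_) h4
      have h5 : (Term.func f ts).realize (Sum.elim (fv x k (fun n => v (n + 1)))
          (bv k (fun n => v (n + 1)))) = T 0 (fun n => v (n + 1)) * T 1 (fun n => v (n + 1)) := by
        show (List.ofFn (fun i => (ts i).realize _)).prod = _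
        simp [hT]
      rw [h5]
      constructor
      · rintro ⟨a, b, rfl, rfl, h⟩
        exact h.symm
      · intro h
        exact ⟨_, _, rfl, rfl, h.symm⟩
    · exact Empty.elim (cast (if_neg h) f)

theorem dg_formula (k : ℕ) (φ : LG.BoundedFormula (P ⊕ ℕ) k) :
    Dg x (fun v => φ.Realize (fv x k v) (bv k v)) := by
  induction φ with
  | falsum => exact Dg.bot
  | @equal k t1 t2 =>
    refine Dg.iff (fun v => ?_) (Dg.ex' (S := fun a v =>
      a = t1.realize (Sum.elim (fv x k v) (bv k v)) ∧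
      a = t2.realize (Sum.elim (fv x k v) (bv k v))) (Dg.and (dg_term x k t1) (dg_term x k t2)))
    change _ ↔ t1.realize _ = t2.realize _
    constructor
    · rintro ⟨a, rfl, h⟩
      exact h
    · intro h
      exact ⟨_, rfl, h⟩
  | rel R ts => exact Empty.elim R
  | imp f g ihf ihg =>
    exact Dg.imp ihf ihg
  | @all k f ih =>
    refine Dg.iff (fun v => ?_) (Dg.all ih)
    rw [BoundedFormula.realize_all]
    refine forall_congr' fun a => ?_
    have h1 : fv x (k + 1) (cns a v) = fv x k v := by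
      funext s
      rcases s with p | n
      · rfl
      · rfl
    have h2 : bv (k + 1) (cns a v) = Fin.snoc (bv k v) a := by
      funext i
      refine Fin.lastCases ?_ (fun i => ?_) i
      · rw [Fin.snoc_last]
        unfold bv
        simp
      · rw [Fin.snoc_castSucc]
        unfold bv
        have hi := i.isLt
        have : k + 1 - 1 - ((Fin.castSucc i : Fin (k + 1)) : ℕ) = (k - 1 - (i : ℕ)) + 1 := by
          rw [Fin.val_castSucc]
          omega
        rw [this]
        rfl
    rw [h1, h2]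

theorem dg_of_df {R : (ℕ → G) → Prop} (h : Df x R) : Dg x R := by
  obtain ⟨φ, hφ⟩ := h
  refine Dg.iff (fun v => ?_) (dg_formula x 0 φ)
  refine Iff.trans ?_ (hφ () v)
  have h1 : fv x 0 v = Sum.elim x v := by
    funext s
    rcases s with p | n <;> rfl
  have h2 : bv 0 v = default := Subsingleton.elim _ _
  rw [h1, h2]
  rfl

end conv

section rel

variable {G : Type} [Group G]

/-- change of the parameters -/
theorem dg_par {P Q : Type} {y : P → G} {X : Q → G} (f : P → Q) (hf : ∀ p, X (f p) = y p)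
    {R : (ℕ → G) → Prop} (h : Dg y R) : Dg X R := by
  induction h with
  | mul => exact Dg.mul
  | eq => exact Dg.eq
  | par p => exact Dg.iff (fun v => by rw [hf]) (Dg.par (x := X) (f p))
  | bot => exact Dg.bot
  | imp _ _ h1 h2 => exact Dg.imp h1 h2
  | all _ h1 => exact Dg.all h1
  | ren ρ _ h1 => exact Dg.ren ρ h1

/-- relativization to a definable subgroup -/
theorem dg_rel {P Q : Type} {H : Subgroup G} {x : P → H} {X : Q → G} (f : P → Q)
    (hf : ∀ p, X (f p) = x p) (hH : Dg X (fun v => v 0 ∈ H)) {R : (ℕ → H) → Prop} (h : Dg x R) :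
    ∃ S : (ℕ → G) → Prop, Dg X S ∧ ∀ v : ℕ → H, S (fun n => (v n : G)) ↔ R v := by
  induction h with
  | mul =>
    refine ⟨_, Dg.mul, fun v => ?_⟩
    show (v 0 : G) * v 1 = v 2 ↔ v 0 * v 1 = v 2
    rw [← Subtype.coe_inj, Subgroup.coe_mul]
  | eq =>
    refine ⟨_, Dg.eq, fun v => ?_⟩
    show (v 0 : G) = v 1 ↔ v 0 = v 1
    exact Subtype.coe_inj
  | par p =>
    refine ⟨_, Dg.par (f p), fun v => ?_⟩
    show (v 0 : G) = X (f p) ↔ v 0 = x p
    rw [hf]
    exact Subtype.coe_inj
  | bot => exact ⟨_, Dg.bot, fun _ => Iff.rfl⟩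
  | imp _ _ h1 h2 =>
    obtain ⟨S1, hS1, h1⟩ := h1
    obtain ⟨S2, hS2, h2⟩ := h2
    exact ⟨_, Dg.imp hS1 hS2, fun v => imp_congr (h1 v) (h2 v)⟩
  | @all R _ h1 =>
    obtain ⟨S1, hS1, h1⟩ := h1
    refine ⟨fun v => ∀ a, (a ∈ H → S1 (cns a v)), Dg.all' (S := fun a v => a ∈ H → S1 (cns a v))
      (Dg.imp hH (Dg.iff (fun v => by rw [cns_eta]) hS1)), fun v => ?_⟩
    have key : ∀ a : H, (cns (a : G) (fun n => (v n : G))) = fun n => ((cns a v n : H) : G) := by
      intro a
      funext n
      cases n <;> rfl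
    constructor
    · intro h a
      have := h (a : G) a.2
      rw [key a] at this
      exact (h1 _).1 this
    · intro h a ha
      have := (h1 _).2 (h ⟨a, ha⟩)
      rw [← key ⟨a, ha⟩] at this
      exact this
  | ren ρ _ h1 =>
    obtain ⟨S1, hS1, h1⟩ := h1
    exact ⟨_, Dg.ren ρ hS1, fun v => h1 (fun n => v (ρ n))⟩

theorem dg_or {P : Type} {x : P → G} {R S : (ℕ → G) → Prop} (hR : Dg x R) (hS : Dg x S) :
    Dg x (fun v => R v ∨ S v) :=
  Dg.iff (fun v => by tauto) (Dg.imp (Dg.not hR) hS)

theorem dg_exfin {P : Type} {x : P → G} {ι : Type} (s : Finset ι) {Q : ι → (ℕ → G) → Prop}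
    (h : ∀ j, Dg x (Q j)) : Dg x (fun v => ∃ j ∈ s, Q j v) := by
  classical
  induction s using Finset.induction_on with
  | empty => exact Dg.iff (fun v => by simp) Dg.bot
  | insert a s _ ih =>
    refine Dg.iff (fun v => ?_) (dg_or (h a) ih)
    simp

end rel

end Pool.Agent.H462R5.RFI
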