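import Mathlib
import Pool.Agent.H462R5.RICHFIa

set_option autoImplicit false

/-! A group with a definable rich subgroup of finite index is bi-interpretable with `ℕ`. -/

namespace Pool.Agent.H462R5.RFI

open FirstOrder FirstOrder.Language Pool.Agent.Helper967.ArithDef Pool.Agent.Helper967.ModelDef
  Pool.Agent.H577R3 Encodable

attribute [local instance] strG

theorem ev_map {G : Type} [Group G] {H : Subgroup G} {n N : ℕ} (x : Fin n → H) (X : Fin N → G)
    (f : Fin n → Fin N) (hf : ∀ i, X (f i) = x i) (l : List (Fin n × Bool)) :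
    ev X (l.map fun a => (f a.1, a.2)) = ((ev x l : H) : G) := by
  unfold ev
  have h1 : FreeGroup.mk (l.map fun a => (f a.1, a.2)) = FreeGroup.map f (FreeGroup.mk l) := rfl
  rw [h1]
  have h2 : (FreeGroup.lift X).comp (FreeGroup.map f) = H.subtype.comp (FreeGroup.lift x) := by
    apply FreeGroup.ext_hom
    intro i
    simp [hf]
  exact congrArg (fun g => g (FreeGroup.mk l)) h2

theorem ev_single {G : Type} [Group G] {N : ℕ} (X : Fin N → G) (i : Fin N) :
    ev X [(i, true)] = X i := by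
  unfold ev
  exact FreeGroup.lift_apply_of

theorem exists_reps {G : Type} [Group G] (H : Subgroup G) (hfin : H.FiniteIndex) :
    ∃ (s : ℕ) (t : Fin s → G), ∀ g : G, ∃ j, g * (t j)⁻¹ ∈ H := by
  classical
  have : Finite (G ⧸ H) := Subgroup.finite_quotient_of_finiteIndex
  haveI := Fintype.ofFinite (G ⧸ H)
  refine ⟨Fintype.card (G ⧸ H), fun j => (((Fintype.equivFin (G ⧸ H)).symm j).out)⁻¹, fun g => ?_⟩
  refine ⟨Fintype.equivFin (G ⧸ H) (QuotientGroup.mk g⁻¹), ?_⟩
  simp only [Equiv.symm_apply_apply, inv_inv]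
  have h1 : (QuotientGroup.mk ((QuotientGroup.mk g⁻¹ : G ⧸ H).out) : G ⧸ H) =
      QuotientGroup.mk g⁻¹ := Quotient.out_eq' _
  rw [eq_comm, QuotientGroup.eq, inv_inv] at h1
  exact h1

theorem taskRICHFI : RM.TaskRICHFI := by
  intro G _ H p y hy hfin n x hx hr hwp
  classical
  obtain ⟨s, t, ht⟩ := exists_reps H hfin
  -- the generators
  set e : (Fin n ⊕ Fin p) ⊕ Fin s ≃ Fin (n + p + s) :=
    (Equiv.sumCongr finSumFinEquiv (Equiv.refl _)).trans finSumFinEquiv with he
  set X : Fin (n + p + s) → G := fun k =>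
    Sum.elim (Sum.elim (fun i => (x i : G)) y) t (e.symm k) with hX
  set fx : Fin n → Fin (n + p + s) := fun i => e (Sum.inl (Sum.inl i)) with hfx
  set fy : Fin p → Fin (n + p + s) := fun i => e (Sum.inl (Sum.inr i)) with hfy
  set ft : Fin s → Fin (n + p + s) := fun i => e (Sum.inr i) with hft
  have hXx : ∀ i, X (fx i) = x i := fun i => by simp [hX, hfx]
  have hXy : ∀ i, X (fy i) = y i := fun i => by simp [hX, hfy]
  have hXt : ∀ i, X (ft i) = t i := fun i => by simp [hX, hft]
  have hHle : H ≤ Subgroup.closure (Set.range X) := by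
    intro g hg
    have h1 : (⟨g, hg⟩ : H) ∈ Subgroup.closure (Set.range x) := by rw [hx]; trivial
    have h2 : H.subtype ⟨g, hg⟩ ∈ (Subgroup.closure (Set.range x)).map H.subtype :=
      Subgroup.mem_map_of_mem _ h1
    rw [MonoidHom.map_closure] at h2
    refine Subgroup.closure_mono ?_ h2
    rintro _ ⟨_, ⟨i, rfl⟩, rfl⟩
    exact ⟨fx i, hXx i⟩
  have hXgen : Subgroup.closure (Set.range X) = ⊤ := by
    rw [eq_top_iff]
    intro g _
    obtain ⟨j, hj⟩ := ht g
    have h1 : g = (g * (t j)⁻¹) * t j := by group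
    rw [h1]
    exact Subgroup.mul_mem _ (hHle hj) (Subgroup.subset_closure ⟨ft j, hXt j⟩)
  have hw : ArithWP X := hwp _ X hXgen
  -- the subgroup is definable
  have hH : Dg X (fun v => v 0 ∈ H) := dg_par fy hXy (dg_of_df y hy)
  obtain ⟨i, hinj, hint, hev⟩ := hr
  -- powers
  have hpow : ∀ k : ℕ, X (fx i) ^ k = ((x i ^ k : H) : G) := fun k => by
    rw [hXx, Subgroup.coe_pow]
  have hinjX : Function.Injective (fun k : ℕ => X (fx i) ^ k) := by
    intro k k' h
    apply hinj
    have h1 : X (fx i) ^ k = X (fx i) ^ k' := h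
    rw [hpow, hpow] at h1
    exact Subtype.coe_injective h1
  have hrng : Dg X (fun v => ∃ k : ℕ, v 0 = X (fx i) ^ k) := by
    obtain ⟨S, hS, h1⟩ := dg_rel (X := X) fx hXx hH (dg_of_df x hint.rng)
    refine Dg.iff (fun v => ?_) (Dg.and hH (Dg.ren (fun _ => 0) hS))
    constructor
    · rintro ⟨h2, h3⟩
      obtain ⟨k, hk⟩ := (h1 (fun _ => ⟨v 0, h2⟩)).1 h3
      refine ⟨k, ?_⟩
      rw [hpow]
      exact congrArg Subtype.val hk
    · rintro ⟨k, hk⟩
      have h2 : v 0 ∈ H := by
        rw [hk, hpow]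
        exact (x i ^ k).2
      refine ⟨h2, (h1 (fun _ => ⟨v 0, h2⟩)).2 ⟨k, ?_⟩⟩
      apply Subtype.ext
      show v 0 = _
      rw [hk, hpow]
  have hbin : ∀ {Q : (ℕ → ℕ) → Prop}, (∃ R : (i : Unit) → (ℕ → H) → Prop,
      DM (ι := Unit) (M := fun _ => H) LG (fun _ => x) R ∧
        ∀ (j : Unit) (w : ℕ → ℕ), R j (fun m => x i ^ (w m)) ↔ Q w) →
      ∃ R : (i : Unit) → (ℕ → G) → Prop, DM (ι := Unit) (M := fun _ => G) LG (fun _ => X) R ∧
        ∀ (j : Unit) (w : ℕ → ℕ), R j (fun m => X (fx i) ^ (w m)) ↔ Q w := by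
    rintro Q ⟨R, hR, h1⟩
    have hR' : Df x (R ()) := DM.iff (fun _ _ => Iff.rfl) hR
    obtain ⟨S, hS, h2⟩ := dg_rel (X := X) fx hXx hH (dg_of_df x hR')
    refine ⟨fun _ => S, hS.toDf, fun j w => ?_⟩
    rw [← h1 () w, ← h2]
    have : (fun m => X (fx i) ^ (w m)) = fun m => ((x i ^ (w m) : H) : G) :=
      funext fun m => hpow _
    rw [this]
  have hintX : Interp (ι := Unit) (M := fun _ => G) (L := LG) (fun _ => X)
      (fun _ k => X (fx i) ^ k) := ⟨hrng.toDf, hbin hint.add, hbin hint.mul⟩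
  -- arithmetical relations
  have harith : ∀ {R : ℕ → ℕ → Prop}, (∀ D : ((ℕ → ℕ) → Prop) → Prop, DC D →
      D (fun w => R (w 0) (w 1))) →
      ∃ S : (ℕ → G) → Prop, Dg X S ∧ ∀ w : ℕ → ℕ, S (fun m => X (fx i) ^ (w m)) ↔
        R (w 0) (w 1) := by
    intro R hR
    obtain ⟨φ, hφ⟩ := hR _ (DN.closed hintX)
    refine ⟨fun v => φ.Realize (Sum.elim X v), dg_of_df X ⟨φ, fun _ _ => Iff.rfl⟩, fun w => ?_⟩
    exact hφ () w
  -- the relation between the words in the two generating systems
  let W : ℕ → Type := fun n => List (Fin n × Bool)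
  let tw : List (Fin n × Bool) → List (Fin (n + p + s) × Bool) := fun l =>
    l.map fun a => (fx a.1, a.2)
  have htw : Primrec tw := by
    refine Primrec.list_map Primrec.id ?_
    exact ((Primrec.dom_finite fun a : Fin n × Bool => ((fx a.1, a.2) :
      Fin (n + p + s) × Bool)).comp Primrec.snd)
  have hrel : ∀ j : Fin s, ∃ S : (ℕ → G) → Prop, Dg X S ∧ ∀ w : ℕ → ℕ,
      S (fun m => X (fx i) ^ (w m)) ↔ ∃ q : List (Fin (n + p + s) × Bool) × List (Fin n × Bool),
        Nat.pair (w 0) (w 1) = encode q ∧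
        ev X (q.1 ++ FreeGroup.invRev (tw q.2 ++ [(ft j, true)])) = 1 := by
    intro j
    refine harith (R := fun a b => ∃ q : List (Fin (n + p + s) × Bool) × List (Fin n × Bool),
        Nat.pair a b = encode q ∧
        ev X (q.1 ++ FreeGroup.invRev (tw q.2 ++ [(ft j, true)])) = 1) ?_
    intro D h
    refine h.app1 (R := fun c => ∃ q : List (Fin (n + p + s) × Bool) × List (Fin n × Bool),
      c = encode q ∧ ev X (q.1 ++ FreeGroup.invRev (tw q.2 ++ [(ft j, true)])) = 1) ?_
      (h.tpair (h.tvar 0) (h.tvar 1))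
    refine BI.wpF X hw (fun q : List (Fin (n + p + s) × Bool) × List (Fin n × Bool) =>
      q.1 ++ FreeGroup.invRev (tw q.2 ++ [(ft j, true)])) ?_ D h
    exact (Primrec.list_append.comp Primrec.fst ((WP.primrec_invRev _).comp
      (Primrec.list_append.comp (htw.comp Primrec.snd) (Primrec.const _)))).to_comp
  choose A hA1 hA2 using hrel
  -- the evaluation in the subgroup
  obtain ⟨E, hE1, hE2⟩ := dg_rel (X := X) fx hXx hH (dg_of_df x hev)
  have hmain : Dg X (fun v => ∃ l : List (Fin (n + p + s) × Bool),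
      v 0 = X (fx i) ^ (encode l) ∧ v 1 = ev X l) := by
    -- the formula
    have hQ : ∀ j : Fin s, Dg X (fun v => ∃ c, ∃ h, (∃ k : ℕ, v 0 = X (fx i) ^ k) ∧
        (∃ k : ℕ, c = X (fx i) ^ k) ∧ A j (fun m => match m with | 0 => v 0 | _ => c) ∧
        (c ∈ H ∧ h ∈ H) ∧ E (fun m => match m with | 0 => c | _ => h) ∧ v 1 = h * X (ft j)) := by
      intro j
      -- variables: `w 0 = h`, `w 1 = c`, `w 2 = v 0`, `w 3 = v 1`
      have c1 : Dg X (fun w => ∃ k : ℕ, w 2 = X (fx i) ^ k) := Dg.ren (fun _ => 2) hrng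
      have c2 : Dg X (fun w => ∃ k : ℕ, w 1 = X (fx i) ^ k) := Dg.ren (fun _ => 1) hrng
      have c3 : Dg X (fun w => A j (fun m => match m with | 0 => w 2 | _ => w 1)) := by
        refine Dg.iff (fun w => ?_) (Dg.ren (fun m => match m with | 0 => 2 | _ => 1) (hA1 j))
        have : (fun m => w (match m with | 0 => 2 | _ => 1)) =
            (fun m => match m with | 0 => w 2 | _ => w 1) := by
          funext m
          cases m <;> rfl
        rw [this]
      have c4 : Dg X (fun w => w 1 ∈ H) := Dg.ren (fun _ => 1) hH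
      have c5 : Dg X (fun w => E (fun m => match m with | 0 => w 1 | _ => w 0)) := by
        refine Dg.iff (fun w => ?_) (Dg.ren (fun m => match m with | 0 => 1 | _ => 0) hE1)
        have : (fun m => w (match m with | 0 => 1 | _ => 0)) =
            (fun m => match m with | 0 => w 1 | _ => w 0) := by
          funext m
          cases m <;> rfl
        rw [this]
      have c6 : Dg X (fun w => w 3 = w 0 * X (ft j)) := by
        have d1 : Dg X (fun u => u 0 = X (ft j)) := Dg.par (ft j)
        have d2 : Dg X (fun u => u 1 * u 0 = u 4) :=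
          Dg.ren (fun m => match m with | 0 => 1 | 1 => 0 | _ => 4) Dg.mul
        refine Dg.iff (fun w => ?_) (Dg.ex' (S := fun a w => a = X (ft j) ∧ w 0 * a = w 3)
          (Dg.and d1 d2))
        constructor
        · rintro ⟨a, rfl, h⟩
          exact h.symm
        · intro h
          exact ⟨_, rfl, h.symm⟩
      have c7 := Dg.and c1 (Dg.and c2 (Dg.and c3 (Dg.and (Dg.and c4 hH) (Dg.and c5 c6))))
      have c8 := Dg.ex' (S := fun h u => (∃ k : ℕ, u 1 = X (fx i) ^ k) ∧
        (∃ k : ℕ, u 0 = X (fx i) ^ k) ∧ A j (fun m => match m with | 0 => u 1 | _ => u 0) ∧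
        (u 0 ∈ H ∧ h ∈ H) ∧ E (fun m => match m with | 0 => u 0 | _ => h) ∧
        u 2 = h * X (ft j)) c7
      exact Dg.ex' (S := fun c v => ∃ h, (∃ k : ℕ, v 0 = X (fx i) ^ k) ∧
        (∃ k : ℕ, c = X (fx i) ^ k) ∧ A j (fun m => match m with | 0 => v 0 | _ => c) ∧
        (c ∈ H ∧ h ∈ H) ∧ E (fun m => match m with | 0 => c | _ => h) ∧ v 1 = h * X (ft j)) c8
    refine Dg.iff (fun v => ?_) (dg_exfin Finset.univ hQ)
    constructor
    · rintro ⟨j, -, c, h, ⟨k, hk⟩, ⟨k', hk'⟩, hA, ⟨hcH, hhH⟩, hE, hv⟩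
      -- words
      have e1 : A j (fun m => X (fx i) ^ ((fun m : ℕ => match m with | 0 => k | _ => k') m)) := by
        convert hA using 2 with m
        cases m with
        | zero => exact hk.symm
        | succ m => exact hk'.symm
      obtain ⟨⟨l, l2⟩, h1, h2⟩ := (hA2 j _).1 e1
      have h1' : Nat.pair k k' = Nat.pair (encode l) (encode l2) := h1
      rw [Nat.pair_eq_pair] at h1'
      obtain ⟨rfl, rfl⟩ := h1'
      have e2 : E (fun m => (((fun m : ℕ => match m with | 0 => (⟨c, hcH⟩ : H) | _ => ⟨h, hhH⟩) m :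
          H) : G)) := by
        convert hE using 2 with m
        cases m <;> rfl
      obtain ⟨l3, h3, h4⟩ := (hE2 _).1 e2
      have h3' : c = ((x i ^ encode l3 : H) : G) := congrArg Subtype.val h3
      have h4' : h = ((ev x l3 : H) : G) := congrArg Subtype.val h4
      rw [hk', ← hpow] at h3'
      have h5 : encode l2 = encode l3 := hinjX h3'
      have h6 : l2 = l3 := encode_injective h5
      refine ⟨l, hk, ?_⟩
      rw [BI.ev_append, BI.ev_invRev, BI.ev_append, ev_single, ev_map x X fx hXx,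
        mul_inv_eq_one] at h2
      rw [h2, hv, h4', h6]
    · rintro ⟨l, hl1, hl2⟩
      obtain ⟨j, hj⟩ := ht (ev X l)
      obtain ⟨l', hl'⟩ := BI.ev_surj x hx ⟨_, hj⟩
      have hl'' : ((ev x l' : H) : G) = ev X l * (t j)⁻¹ := congrArg Subtype.val hl'
      refine ⟨j, Finset.mem_univ j, X (fx i) ^ encode l', ((ev x l' : H) : G), ⟨_, hl1⟩, ⟨_, rfl⟩, ?_,
        ⟨?_, (ev x l').2⟩, ?_, ?_⟩
      · have e1 := (hA2 j (fun m : ℕ => match m with | 0 => encode l | _ => encode l')).2
          ⟨(l, l'), rfl, by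
            rw [BI.ev_append, BI.ev_invRev, BI.ev_append, ev_single, ev_map x X fx hXx,
              mul_inv_eq_one, hl'', hXt]
            group⟩
        convert e1 using 2 with m
        cases m with
        | zero => exact hl1
        | succ m => rfl
      · rw [hpow]
        exact (x i ^ _).2
      · have e2 := (hE2 (fun m : ℕ => match m with | 0 => x i ^ encode l' | _ => ev x l')).2
          ⟨l', rfl, rfl⟩
        convert e2 using 2 with m
        cases m with
        | zero => exact hpow _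
        | succ m => rfl
      · rw [hl2, hl'', hXt]
        group
  exact biInterp_of_rich X hXgen ⟨fx i, hinjX, hintX, hmain.toDf⟩ hw

end Pool.Agent.H462R5.RFI
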